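import Mathlib

-- part Pool.Agent.Lib.MP_c6b127_co.Segre
section

/-!
The generalised quadrangle T2*(O) of order (31,33) built from the Segre hyperoval
O = D(6) in PG(2,32), together with a point-primitive group having two line orbits of
different sizes.  This file: the arc property of the Segre hyperoval.
-/

set_option autoImplicit false
set_option linter.unusedSectionVars false

open scoped Pointwise

namespace Pool.Agent.Lib.MP_c6b127_co

variable {F : Type} [Field F] [Fintype F] [hF : Fact (Fintype.card F = 32)]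

abbrev V (F : Type) : Type := F × F × F

abbrev D (F : Type) : Type := F ⊕ Bool

lemma two_eq_zero : (2 : F) = 0 := by
  have h := FiniteField.cast_card_eq_zero F
  rw [hF.out] at h
  have h' : (2 : F) ^ 5 = 0 := by
    rw [← h]; norm_num
  exact pow_eq_zero_iff (by norm_num) |>.mp h'

lemma pow31 {x : F} (hx : x ≠ 0) : x ^ 31 = 1 := by
  have := FiniteField.pow_card_sub_one_eq_one x hx
  rwa [hF.out] at this

lemma pow6_inj {x y : F} (h : x ^ 6 = y ^ 6) : x = y := by
  have key : ∀ z : F, (z ^ 6) ^ 26 = z := by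
    intro z
    by_cases hz : z = 0
    · simp [hz]
    · have h31 := pow31 hz
      calc (z ^ 6) ^ 26 = (z ^ 31) ^ 5 * z := by ring
        _ = z := by rw [h31]; ring
  rw [← key x, h, key y]

lemma aniso {A B : F} (h : A ^ 2 + A * B + B ^ 2 = 0) : A = 0 ∧ B = 0 := by
  have h2 := two_eq_zero (F := F)
  have hB : B = 0 := by
    by_contra hB
    have hA : A ≠ 0 := by
      rintro rfl
      apply hB
      simpa using h
    have h3 : A ^ 3 = B ^ 3 := by linear_combination (A - B) * h
    have h6 : A ^ 6 = B ^ 6 := by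
      calc A ^ 6 = (A ^ 3) ^ 2 := by ring
        _ = (B ^ 3) ^ 2 := by rw [h3]
        _ = B ^ 6 := by ring
    have hAB := pow6_inj h6
    subst hAB
    apply hA
    have : A ^ 2 = 0 := by linear_combination h - A ^ 2 * h2
    simpa using this
  subst hB
  refine ⟨?_, rfl⟩
  simpa using h

def dir : D F → V F
  | Sum.inl t => (1, t, t ^ 6)
  | Sum.inr false => (0, 1, 0)
  | Sum.inr true => (0, 0, 1)

def det3 (u v w : V F) : F :=
  u.1 * (v.2.1 * w.2.2 - v.2.2 * w.2.1) - u.2.1 * (v.1 * w.2.2 - v.2.2 * w.1)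
    + u.2.2 * (v.1 * w.2.1 - v.2.1 * w.1)

lemma det_fin {s t u : F} (hst : s ≠ t) (hsu : s ≠ u) (htu : t ≠ u) :
    det3 ((1, s, s ^ 6) : V F) (1, t, t ^ 6) (1, u, u ^ 6) ≠ 0 := by
  intro h
  have h2 := two_eq_zero (F := F)
  simp only [det3] at h
  have h' : (t - s) * (u - s) * (u - t) *
      ((s + t + u) ^ 4 - 3 * (s + t + u) ^ 2 * (s * t + s * u + t * u)
        + (s * t + s * u + t * u) ^ 2 + 2 * (s + t + u) * (s * t * u)) = 0 := by
    linear_combination h
  have h1 : t - s ≠ 0 := sub_ne_zero.mpr hst.symm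
  have h3 : u - s ≠ 0 := sub_ne_zero.mpr hsu.symm
  have h4 : u - t ≠ 0 := sub_ne_zero.mpr htu.symm
  have h5 : (s + t + u) ^ 4 - 3 * (s + t + u) ^ 2 * (s * t + s * u + t * u)
        + (s * t + s * u + t * u) ^ 2 + 2 * (s + t + u) * (s * t * u) = 0 := by
    simpa [h1, h3, h4] using h'
  have h6 : ((s + t + u) ^ 2) ^ 2 + ((s + t + u) ^ 2) * (s * t + s * u + t * u)
      + (s * t + s * u + t * u) ^ 2 = 0 := by
    linear_combination h5 + (2 * (s + t + u) ^ 2 * (s * t + s * u + t * u)
      - (s + t + u) * (s * t * u)) * h2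
  obtain ⟨hA, hB⟩ := aniso h6
  have hA' : s + t + u = 0 := by simpa using hA
  have h7 : s ^ 2 + s * t + t ^ 2 = 0 := by
    linear_combination -hB + (s + t) * hA'
  obtain ⟨hs, ht⟩ := aniso h7
  exact hst (hs.trans ht.symm)

lemma det_ne {d₁ d₂ d₃ : D F} (h12 : d₁ ≠ d₂) (h13 : d₁ ≠ d₃) (h23 : d₂ ≠ d₃) :
    det3 (dir d₁) (dir d₂) (dir d₃) ≠ 0 := by
  have hp : ∀ {x y : F}, (Sum.inl x : D F) ≠ Sum.inl y → x ^ 6 - y ^ 6 ≠ 0 :=
    fun h h' => h (by rw [pow6_inj (sub_eq_zero.mp h')])
  have hq : ∀ {x y : F}, (Sum.inl x : D F) ≠ Sum.inl y → x - y ≠ 0 :=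
    fun h h' => h (by rw [sub_eq_zero.mp h'])
  rcases d₁ with s | _ | _ <;> rcases d₂ with t | _ | _ <;> rcases d₃ with u | _ | _
  all_goals first
    | exact absurd rfl h12
    | exact absurd rfl h13
    | exact absurd rfl h23
    | exact det_fin (fun h => h12 (by rw [h])) (fun h => h13 (by rw [h]))
        (fun h => h23 (by rw [h]))
    | skip
  all_goals simp only [dir, det3]
  all_goals first
    | (intro h; exact one_ne_zero (α := F) (by linear_combination h))
    | (intro h; exact one_ne_zero (α := F) (by linear_combination -h))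
    | (intro h; exact hp h12 (by linear_combination h))
    | (intro h; exact hq h12 (by linear_combination -h))
    | (intro h; exact hp h13 (by linear_combination -h))
    | (intro h; exact hq h13 (by linear_combination h))
    | (intro h; exact hp h23 (by linear_combination h))
    | (intro h; exact hq h23 (by linear_combination -h))

lemma indep3 {d₁ d₂ d₃ : D F} (h12 : d₁ ≠ d₂) (h13 : d₁ ≠ d₃) (h23 : d₂ ≠ d₃) {a b c : F}
    (h : a • dir d₁ + b • dir d₂ + c • dir d₃ = 0) : a = 0 ∧ b = 0 ∧ c = 0 := by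
  have hd := det_ne h12 h13 h23
  generalize dir d₁ = u at h hd
  generalize dir d₂ = v at h hd
  generalize dir d₃ = w at h hd
  obtain ⟨u1, u2, u3⟩ := u
  obtain ⟨v1, v2, v3⟩ := v
  obtain ⟨w1, w2, w3⟩ := w
  simp only [Prod.smul_mk, Prod.mk_add_mk, smul_eq_mul, Prod.mk_eq_zero] at h
  obtain ⟨e1, e2, e3⟩ := h
  simp only [det3] at hd
  refine ⟨?_, ?_, ?_⟩
  · apply (mul_eq_zero.mp _).resolve_right hd
    linear_combination (v2 * w3 - v3 * w2) * e1 - (v1 * w3 - v3 * w1) * e2
      + (v1 * w2 - v2 * w1) * e3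
  · apply (mul_eq_zero.mp _).resolve_right hd
    linear_combination -(u2 * w3 - u3 * w2) * e1 + (u1 * w3 - u3 * w1) * e2
      - (u1 * w2 - u2 * w1) * e3
  · apply (mul_eq_zero.mp _).resolve_right hd
    linear_combination (u2 * v3 - u3 * v2) * e1 - (u1 * v3 - u3 * v1) * e2
      + (u1 * v2 - u2 * v1) * e3

lemma exists_third (d₁ d₂ : D F) : ∃ d₃ : D F, d₁ ≠ d₃ ∧ d₂ ≠ d₃ := by
  rcases d₁ with s | _ | _ <;> rcases d₂ with t | _ | _
  · exact ⟨Sum.inr false, by simp, by simp⟩
  · exact ⟨Sum.inr true, by simp, by simp⟩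
  · exact ⟨Sum.inr false, by simp, by simp⟩
  · exact ⟨Sum.inr true, by simp, by simp⟩
  · exact ⟨Sum.inr true, by simp, by simp⟩
  · exact ⟨Sum.inl 0, by simp, by simp⟩
  · exact ⟨Sum.inr false, by simp, by simp⟩
  · exact ⟨Sum.inl 0, by simp, by simp⟩
  · exact ⟨Sum.inr false, by simp, by simp⟩

lemma indep2 {d₁ d₂ : D F} (h12 : d₁ ≠ d₂) {a b : F}
    (h : a • dir d₁ + b • dir d₂ = 0) : a = 0 ∧ b = 0 := by
  obtain ⟨d₃, h13, h23⟩ := exists_third d₁ d₂
  have := indep3 h12 h13 h23 (a := a) (b := b) (c := 0) (by simpa using h)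
  exact ⟨this.1, this.2.1⟩

lemma indep1 {d : D F} {a : F} (h : a • dir d = 0) : a = 0 := by
  obtain ⟨d', h', -⟩ := exists_third d d
  exact (indep2 h' (a := a) (b := 0) (by simpa using h)).1

/-- Every vector off the direction `d` lies in the span of `dir d` and a second direction. -/
lemma span_two (d : D F) (v : V F) (hv : ∀ s : F, v ≠ s • dir d) :
    ∃ d' : D F, d' ≠ d ∧ ∃ s u : F, u ≠ 0 ∧ v = s • dir d + u • dir d' := by
  classical
  let f : ({d' : D F // d' ≠ d} × F × {u : F // u ≠ 0}) ⊕ F → V F := fun x =>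
    match x with
    | Sum.inl (d', s, u) => s • dir d + u.1 • dir d'.1
    | Sum.inr s => s • dir d
  have hinj : Function.Injective f := by
    rintro (⟨⟨d1, h1⟩, s1, ⟨u1, hu1⟩⟩ | s1) (⟨⟨d2, h2⟩, s2, ⟨u2, hu2⟩⟩ | s2) h
    · simp only [f] at h
      by_cases h12 : d1 = d2
      · subst h12
        have := indep2 h1.symm (a := s1 - s2) (b := u1 - u2) (by
          rw [sub_smul, sub_smul]; linear_combination (exp := 1) h)
        have e1 := sub_eq_zero.mp this.1
        have e2 := sub_eq_zero.mp this.2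
        subst e1 e2
        rfl
      · exfalso
        have := indep3 h1.symm h2.symm h12 (a := s1 - s2) (b := u1) (c := -u2) (by
          rw [sub_smul, neg_smul]; linear_combination (exp := 1) h)
        exact hu1 this.2.1
    · simp only [f] at h
      exfalso
      have := indep2 h1.symm (a := s1 - s2) (b := u1) (by
        rw [sub_smul]; linear_combination (exp := 1) h)
      exact hu1 this.2
    · simp only [f] at h
      exfalso
      have := indep2 h2.symm (a := s1 - s2) (b := -u2) (by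
        rw [sub_smul, neg_smul]; linear_combination (exp := 1) h)
      exact hu2 (neg_eq_zero.mp this.2)
    · simp only [f] at h
      have := indep1 (d := d) (a := s1 - s2) (by rw [sub_smul, h, sub_self])
      rw [sub_eq_zero.mp this]
  have hcard : Fintype.card (({d' : D F // d' ≠ d} × F × {u : F // u ≠ 0}) ⊕ F)
      = Fintype.card (V F) := by
    simp [Fintype.card_subtype_compl, hF.out]
  have hbij : Function.Bijective f := (Fintype.bijective_iff_injective_and_card f).mpr ⟨hinj, hcard⟩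
  obtain ⟨x, hx⟩ := hbij.2 v
  rcases x with ⟨⟨d1, h1⟩, s1, ⟨u1, hu1⟩⟩ | s1
  · exact ⟨d1, h1, s1, u1, hu1, hx.symm⟩
  · exact absurd hx.symm (hv s1)

end Pool.Agent.Lib.MP_c6b127_co
end

-- part Pool.Agent.Lib.MP_c6b127_co.Quad
section

/-!
Lines of T2*(O), the quadrangle axioms, the group, primitivity and the orbit count.
-/

set_option autoImplicit false
set_option linter.unusedSectionVars false

open scoped Pointwise

namespace Pool.Agent.Lib.MP_c6b127_co

variable {F : Type} [Field F] [Fintype F] [hF : Fact (Fintype.card F = 32)]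

def line (d : D F) (a : V F) : Set (V F) := {x | ∃ t : F, x = a + t • dir d}

lemma self_mem_line (d : D F) (a : V F) : a ∈ line d a := ⟨0, by simp⟩

lemma line_eq_of_mem {d : D F} {a p : V F} (h : p ∈ line d a) : line d a = line d p := by
  obtain ⟨t, rfl⟩ := h
  ext x
  constructor
  · rintro ⟨u, rfl⟩
    exact ⟨u - t, by rw [sub_smul]; abel⟩
  · rintro ⟨u, rfl⟩
    exact ⟨t + u, by rw [add_smul]; abel⟩

lemma ncard_line (d : D F) (a : V F) : (line d a).ncard = 32 := by
  have h : line d a = (fun t : F => a + t • dir d) '' Set.univ := by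
    ext x
    simp [line, eq_comm]
  rw [h, Set.ncard_image_of_injective, Set.ncard_univ, Nat.card_eq_fintype_card, hF.out]
  intro s t hst
  have := indep1 (d := d) (a := s - t) (by
    rw [sub_smul]; simpa [sub_eq_zero] using hst)
  exact sub_eq_zero.mp this

lemma dir_eq_of_two {d d' : D F} {p q : V F} (hpq : p ≠ q) (h : q ∈ line d p)
    (h' : q ∈ line d' p) : d = d' := by
  by_contra hd
  obtain ⟨t, ht⟩ := h
  obtain ⟨u, hu⟩ := h'
  have := indep2 hd (a := t) (b := -u) (by
    rw [neg_smul]; linear_combination (exp := 1) hu - ht)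
  apply hpq
  rw [ht, this.1]; simp

lemma dir_eq_of_line_eq {d d' : D F} {a a' : V F} (h : line d a = line d' a') : d = d' := by
  have h1 : a ∈ line d' a' := h ▸ self_mem_line d a
  rw [line_eq_of_mem h1] at h
  have h2 : a + (1 : F) • dir d ∈ line d a := ⟨1, rfl⟩
  refine dir_eq_of_two ?_ h2 (h ▸ h2)
  intro h3
  have : (1 : F) • dir d = 0 := by simpa using h3
  exact one_ne_zero (indep1 this)

/-- The lines whose direction lies in `T`. -/
def linesOf (T : Set (D F)) : Set (Set (V F)) := {S | ∃ d ∈ T, ∃ a, S = line d a}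

/-- The three coordinate directions. -/
def spec : Set (D F) := {Sum.inl 0, Sum.inr false, Sum.inr true}

/-- The group: all permutations of the points preserving the lines and the special lines. -/
def grp (F : Type) [Field F] : Subgroup (Equiv.Perm (V F)) :=
  MulAction.stabilizer (Equiv.Perm (V F)) (linesOf (Set.univ : Set (D F))) ⊓
    MulAction.stabilizer (Equiv.Perm (V F)) (linesOf (spec : Set (D F)))

/-- The lines as a sub-action. -/
def Ln (F : Type) [Field F] : SubMulAction (grp F) (Set (V F)) where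
  carrier := linesOf Set.univ
  smul_mem' := by
    intro g S hS
    have h := (Subgroup.mem_inf.mp g.2).1
    rw [MulAction.mem_stabilizer_iff] at h
    rw [← h]
    exact Set.smul_mem_smul_set hS

lemma mem_grp {g : Equiv.Perm (V F)}
    (h : ∀ d : D F, ∀ a, ∃ d', (d ∈ (spec : Set (D F)) → d' ∈ (spec : Set (D F))) ∧
      ∃ a', g • line d a = line d' a') : g ∈ grp F := by
  refine Subgroup.mem_inf.mpr ⟨?_, ?_⟩
  · rw [MulAction.mem_stabilizer_set_iff_smul_set_subset (Set.toFinite _)]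
    rintro _ ⟨_, ⟨d, -, a, rfl⟩, rfl⟩
    obtain ⟨d', -, a', h'⟩ := h d a
    exact ⟨d', trivial, a', h'⟩
  · rw [MulAction.mem_stabilizer_set_iff_smul_set_subset (Set.toFinite _)]
    rintro _ ⟨_, ⟨d, hd, a, rfl⟩, rfl⟩
    obtain ⟨d', hd', a', h'⟩ := h d a
    exact ⟨d', hd' hd, a', h'⟩

lemma transl_mem (v : V F) : Equiv.addLeft v ∈ grp F := by
  apply mem_grp
  intro d a
  refine ⟨d, id, v + a, ?_⟩
  ext x
  constructor
  · rintro ⟨_, ⟨t, rfl⟩, rfl⟩
    exact ⟨t, by simp [add_assoc]⟩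
  · rintro ⟨t, rfl⟩
    exact ⟨a + t • dir d, ⟨t, rfl⟩, by simp [add_assoc]⟩

lemma lin_mem (e : V F ≃ₗ[F] V F)
    (h : ∀ d : D F, ∃ d', (d ∈ (spec : Set (D F)) → d' ∈ (spec : Set (D F))) ∧
      ∃ c : F, c ≠ 0 ∧ e (dir d) = c • dir d') : e.toEquiv ∈ grp F := by
  apply mem_grp
  intro d a
  obtain ⟨d', hd', c, hc, he⟩ := h d
  refine ⟨d', hd', e a, ?_⟩
  ext x
  constructor
  · rintro ⟨_, ⟨t, rfl⟩, rfl⟩
    exact ⟨t * c, by simp [he, mul_smul]⟩
  · rintro ⟨t, rfl⟩
    refine ⟨a + (t / c) • dir d, ⟨_, rfl⟩, ?_⟩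
    simp [he, smul_smul, hc]

/-- The diagonal map diag(l, l a, l a^6). -/
def diag (l a : F) (hl : l ≠ 0) (ha : a ≠ 0) : V F ≃ₗ[F] V F where
  toFun v := (l * v.1, l * a * v.2.1, l * a ^ 6 * v.2.2)
  invFun v := (v.1 / l, v.2.1 / (l * a), v.2.2 / (l * a ^ 6))
  map_add' u v := by ext <;> simp <;> ring
  map_smul' c v := by ext <;> simp <;> ring
  left_inv v := by ext <;> simp <;> field_simp
  right_inv v := by ext <;> simp <;> field_simp

/-- The cyclic shift of coordinates. -/
def shift (F : Type) [Field F] : V F ≃ₗ[F] V F where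
  toFun v := (v.2.1, v.2.2, v.1)
  invFun v := (v.2.2, v.1, v.2.1)
  map_add' _ _ := rfl
  map_smul' _ _ := rfl
  left_inv _ := rfl
  right_inv _ := rfl

lemma diag_mem (l a : F) (hl : l ≠ 0) (ha : a ≠ 0) : (diag l a hl ha).toEquiv ∈ grp F := by
  apply lin_mem
  rintro (t | _ | _)
  · refine ⟨Sum.inl (a * t), ?_, l, hl, ?_⟩
    · simp only [spec, Set.mem_insert_iff, Sum.inl.injEq, Set.mem_singleton_iff, reduceCtorEq,
        or_false]
      rintro rfl
      simp
    · ext <;> simp [diag, dir] <;> ring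
  · exact ⟨Sum.inr false, id, l * a, mul_ne_zero hl ha, by ext <;> simp [diag, dir]⟩
  · exact ⟨Sum.inr true, id, l * a ^ 6, mul_ne_zero hl (pow_ne_zero _ ha),
      by ext <;> simp [diag, dir]⟩

lemma shift_mem : (shift F).toEquiv ∈ grp F := by
  apply lin_mem
  rintro (t | _ | _)
  · by_cases ht : t = 0
    · subst ht
      exact ⟨Sum.inr true, fun _ => by simp [spec], 1, one_ne_zero, by ext <;> simp [shift, dir]⟩
    · refine ⟨Sum.inl (t ^ 5), ?_, t, ht, ?_⟩
      · simp [spec, ht]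
      · have := pow31 ht
        ext
        · simp [shift, dir]
        · simp [shift, dir]; ring
        · simp only [shift, dir, LinearEquiv.coe_mk, LinearMap.coe_mk, AddHom.coe_mk,
            Prod.smul_mk, smul_eq_mul]
          linear_combination -this
  · exact ⟨Sum.inl 0, fun _ => by simp [spec], 1, one_ne_zero, by ext <;> simp [shift, dir]⟩
  · exact ⟨Sum.inr false, fun _ => by simp [spec], 1, one_ne_zero, by ext <;> simp [shift, dir]⟩

lemma exists_ne01 : ∃ a : F, a ≠ 0 ∧ a ≠ 1 := by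
  classical
  by_contra h
  push Not at h
  have : (Finset.univ : Finset F) ⊆ {0, 1} := by
    intro a _
    by_cases ha : a = 0
    · simp [ha]
    · simp [h a ha]
  have h2 := Finset.card_le_card this
  rw [Finset.card_univ, hF.out] at h2
  have h3 : ({0, 1} : Finset F).card ≤ 2 := Finset.card_le_two
  omega

instance pretrans : MulAction.IsPretransitive (grp F) (V F) where
  exists_smul_eq x y := ⟨⟨Equiv.addLeft (y - x), transl_mem _⟩, by
    change (y - x) + x = y
    simp⟩

lemma preprim : MulAction.IsPreprimitive (grp F) (V F) := by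
  apply MulAction.IsPreprimitive.of_isTrivialBlock_base (0 : V F)
  intro B h0 hB
  rw [MulAction.isBlock_iff_smul_eq_of_mem] at hB
  have hg : ∀ g : grp F, g • (0 : V F) ∈ B → ∀ x ∈ B, g • x ∈ B := by
    intro g hg x hx
    rw [← hB h0 hg]
    exact Set.smul_mem_smul_set hx
  have hadd : ∀ x ∈ B, ∀ y ∈ B, x + y ∈ B := by
    intro x hx y hy
    exact hg ⟨Equiv.addLeft x, transl_mem _⟩ (by
      change x + 0 ∈ B
      simpa using hx) y hy
  have hdiag : ∀ (l a : F), l ≠ 0 → a ≠ 0 → ∀ x y z : F, (x, y, z) ∈ B →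
      (l * x, l * a * y, l * a ^ 6 * z) ∈ B := by
    intro l a hl ha x y z h
    exact hg ⟨_, diag_mem l a hl ha⟩ (by
      change diag l a hl ha 0 ∈ B
      simpa using h0) _ h
  have hshift : ∀ x y z : F, (x, y, z) ∈ B → (y, z, x) ∈ B := by
    intro x y z h
    exact hg ⟨_, shift_mem⟩ (by
      change shift F 0 ∈ B
      simpa using h0) _ h
  by_cases hs : B.Subsingleton
  · exact Or.inl hs
  right
  obtain ⟨a, ha0, ha1⟩ := exists_ne01 (F := F)
  have ha6 : a ^ 6 ≠ 1 := fun h => ha1 (pow6_inj (by simpa using h))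
  have key : ∀ x y z : F, x ≠ 0 → (x, y, z) ∈ B → ∀ c : F, (c, (0 : F), (0 : F)) ∈ B := by
    intro x y z hx h c
    by_cases hc : c = 0
    · subst hc; exact h0
    have h1 := hadd _ (hdiag 1 a one_ne_zero ha0 _ _ _ h) _
      (hdiag (-a) 1 (neg_ne_zero.mpr ha0) one_ne_zero _ _ _ h)
    simp only [Prod.mk_add_mk] at h1
    have h2 := hadd _ (hdiag 1 a one_ne_zero ha0 _ _ _ h1) _
      (hdiag (-a ^ 6) 1 (neg_ne_zero.mpr (pow_ne_zero _ ha0)) one_ne_zero _ _ _ h1)
    simp only [Prod.mk_add_mk] at h2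
    have hne : (1 - a) * (1 - a ^ 6) * x ≠ 0 :=
      mul_ne_zero (mul_ne_zero (sub_ne_zero.mpr ha1.symm) (sub_ne_zero.mpr ha6.symm)) hx
    have h3 := hdiag (c / ((1 - a) * (1 - a ^ 6) * x)) 1 (div_ne_zero hc hne) one_ne_zero _ _ _ h2
    convert h3 using 2
    · have h1a := sub_ne_zero.mpr ha1.symm
      have h6a := sub_ne_zero.mpr ha6.symm
      field_simp
      ring
    · congr 1 <;> ring
  have hex : ∃ v ∈ B, v ≠ 0 := by
    rw [Set.not_subsingleton_iff] at hs
    exact hs.exists_ne 0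
  obtain ⟨⟨x, y, z⟩, hv, hv0⟩ := hex
  have key2 : ∀ c : F, (c, (0 : F), (0 : F)) ∈ B := by
    by_cases hx : x = 0
    · by_cases hy : y = 0
      · have hz : z ≠ 0 := by
          rintro rfl
          exact hv0 (by simp [hx, hy])
        exact key _ _ _ hz (hshift _ _ _ (hshift _ _ _ hv))
      · exact key _ _ _ hy (hshift _ _ _ hv)
    · exact key _ _ _ hx hv
  rw [Set.eq_univ_iff_forall]
  rintro ⟨p, q, r⟩
  have := hadd _ (key2 p) _ (hadd _ (hshift _ _ _ (hshift _ _ _ (key2 q))) _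
    (hshift _ _ _ (key2 r)))
  simpa using this

/-- The line with direction `d` through `a`, as an element of the line type. -/
def mkL (d : D F) (a : V F) : Ln F := ⟨line d a, d, trivial, a, rfl⟩

lemma exists_mkL (l : Ln F) {p : V F} (hp : p ∈ (l : Set (V F))) : ∃ d, l = mkL d p := by
  obtain ⟨S, d, _, a, rfl⟩ := l
  exact ⟨d, Subtype.ext (line_eq_of_mem hp)⟩

lemma mkL_inj (p : V F) : Function.Injective (fun d : D F => mkL d p) := by
  intro d d' h
  exact dir_eq_of_line_eq (congrArg Subtype.val h)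

lemma ncard_through (T : Set (D F)) (p : V F) :
    {l : Ln F | (l : Set (V F)) ∈ linesOf T ∧ p ∈ (l : Set (V F))}.ncard = T.ncard := by
  have : {l : Ln F | (l : Set (V F)) ∈ linesOf T ∧ p ∈ (l : Set (V F))}
      = (fun d : D F => mkL d p) '' T := by
    ext l
    constructor
    · rintro ⟨⟨d, hd, a, h⟩, hp⟩
      refine ⟨d, hd, Subtype.ext ?_⟩
      rw [h] at hp ⊢
      exact (line_eq_of_mem hp).symm
    · rintro ⟨d, hd, rfl⟩
      exact ⟨⟨d, hd, p, rfl⟩, self_mem_line d p⟩
  rw [this, Set.ncard_image_of_injective _ (mkL_inj p)]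

lemma ncard_pts (l : Ln F) : (l : Set (V F)).ncard = 32 := by
  obtain ⟨S, d, _, a, rfl⟩ := l
  exact ncard_line d a

lemma count (T : Set (D F)) :
    32 ^ 3 * T.ncard = {l : Ln F | (l : Set (V F)) ∈ linesOf T}.ncard * 32 := by
  classical
  have : Fintype (Ln F) := Fintype.ofFinite _
  have h := Finset.card_mul_eq_card_mul (s := (Finset.univ : Finset (V F)))
    (t := (Finset.univ : Finset (Ln F)).filter (fun l : Ln F => (l : Set (V F)) ∈ linesOf T))
    (fun (p : V F) (l : Ln F) => p ∈ (l : Set (V F))) (m := T.ncard) (n := 32) (by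
      intro p _
      rw [← ncard_through T p, ← Set.ncard_coe_finset]
      congr 1
      ext l
      simp) (by
      intro l _
      rw [← ncard_pts l, ← Set.ncard_coe_finset]
      congr 1
      ext p
      simp)
  rw [Finset.card_univ] at h
  simp only [Fintype.card_prod, hF.out] at h
  rw [← Set.ncard_coe_finset] at h
  simp only [Finset.coe_filter, Finset.mem_univ, true_and] at h
  rw [← h]
  norm_num

lemma ncard_spec : (spec : Set (D F)).ncard = 3 := by
  rw [spec, Set.ncard_eq_three]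
  exact ⟨_, _, _, by simp, by simp, by simp, rfl⟩

lemma card_D : Nat.card (D F) = 34 := by
  simp [hF.out]

lemma ncard_spec_compl : (specᶜ : Set (D F)).ncard = 31 := by
  have := Set.ncard_add_ncard_compl (spec : Set (D F))
  rw [ncard_spec, card_D] at this
  omega

lemma gq_axiom (p : V F) (l : Ln F) (hp : p ∉ (l : Set (V F))) :
    ∃! x : V F × Ln F, p ∈ (x.2 : Set (V F)) ∧ x.1 ∈ (x.2 : Set (V F)) ∧ x.1 ∈ (l : Set (V F)) := by
  obtain ⟨S, d, _, a, rfl⟩ := l
  change p ∉ line d a at hp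
  obtain ⟨d', hd', s, u, hu, hv⟩ := span_two d (p - a) (by
    intro s hs
    exact hp ⟨s, by rw [← hs]; simp⟩)
  refine ⟨(a + s • dir d, mkL d' p), ⟨self_mem_line _ _, ⟨-u, ?_⟩, ⟨s, rfl⟩⟩, ?_⟩
  · rw [neg_smul]
    linear_combination (exp := 1) -hv
  · rintro ⟨Q, M⟩ ⟨h1, h2, s', hs'⟩
    obtain ⟨d'', rfl⟩ := exists_mkL M h1
    obtain ⟨u', hu'⟩ := h2
    simp only at hs' hu'
    have hdd : d'' ≠ d := by
      rintro rfl
      exact hp ⟨s' - u', by rw [sub_smul]; linear_combination (exp := 1) hs' - hu'⟩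
    have hd2 : d'' = d' := by
      by_contra hne
      have := indep3 hd'.symm hdd.symm (Ne.symm hne) (a := s - s') (b := u) (c := u') (by
        rw [sub_smul]; linear_combination (exp := 1) hs' - hu' - hv)
      exact hu this.2.1
    subst hd2
    have := indep2 hdd.symm (a := s - s') (b := u + u') (by
      rw [sub_smul, add_smul]; linear_combination (exp := 1) hs' - hu' - hv)
    rw [hs', sub_eq_zero.mp this.1]

lemma spec_smul (g : grp F) (l : Ln F) (h : (l : Set (V F)) ∈ linesOf (spec : Set (D F))) :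
    ((g • l : Ln F) : Set (V F)) ∈ linesOf (spec : Set (D F)) := by
  have hg := (Subgroup.mem_inf.mp g.2).2
  rw [MulAction.mem_stabilizer_iff] at hg
  rw [← hg]
  exact Set.smul_mem_smul_set h

lemma spec_orbit {l m : Ln F} (h : m ∈ MulAction.orbit (grp F) l) :
    (m : Set (V F)) ∈ linesOf (spec : Set (D F)) ↔ (l : Set (V F)) ∈ linesOf (spec : Set (D F)) := by
  obtain ⟨g, rfl⟩ := h
  refine ⟨fun h => ?_, spec_smul g l⟩
  simpa using spec_smul g⁻¹ _ h

lemma compl_iff (l : Ln F) :
    (l : Set (V F)) ∈ linesOf (specᶜ : Set (D F)) ↔ (l : Set (V F)) ∉ linesOf (spec : Set (D F)) := by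
  obtain ⟨S, d, _, a, rfl⟩ := l
  constructor
  · rintro ⟨d1, h1, a1, e1⟩ ⟨d2, h2, a2, e2⟩
    have := dir_eq_of_line_eq (e1.symm.trans e2)
    subst this
    exact h1 h2
  · intro h
    exact ⟨d, fun hd => h ⟨d, hd, a, rfl⟩, a, rfl⟩

lemma not_dichotomy : ¬ (MulAction.IsPretransitive (grp F) (Ln F) ∨
    ∃ l₁ l₂ : Ln F, l₂ ∉ MulAction.orbit (grp F) l₁ ∧
      (∀ l : Ln F, l ∈ MulAction.orbit (grp F) l₁ ∨ l ∈ MulAction.orbit (grp F) l₂) ∧
      Set.ncard (MulAction.orbit (grp F) l₁) = Set.ncard (MulAction.orbit (grp F) l₂)) := by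
  have hs : ((mkL (Sum.inl 0) 0 : Ln F) : Set (V F)) ∈ linesOf (spec : Set (D F)) :=
    ⟨_, by simp [spec], 0, rfl⟩
  have hn : ((mkL (Sum.inl 1) 0 : Ln F) : Set (V F)) ∉ linesOf (spec : Set (D F)) := by
    rw [← compl_iff]
    exact ⟨_, by simp [spec], 0, rfl⟩
  have c1 := count (spec : Set (D F))
  have c2 := count (specᶜ : Set (D F))
  rw [ncard_spec] at c1
  rw [ncard_spec_compl] at c2
  simp only [compl_iff] at c2
  have main : ∀ l₁ l₂ : Ln F, (l₁ : Set (V F)) ∈ linesOf (spec : Set (D F)) →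
      (l₂ : Set (V F)) ∉ linesOf (spec : Set (D F)) →
      (∀ l : Ln F, l ∈ MulAction.orbit (grp F) l₁ ∨ l ∈ MulAction.orbit (grp F) l₂) →
      Set.ncard (MulAction.orbit (grp F) l₁) ≠ Set.ncard (MulAction.orbit (grp F) l₂) := by
    intro l₁ l₂ h1 h2 h
    have e1 : MulAction.orbit (grp F) l₁ =
        {l : Ln F | (l : Set (V F)) ∈ linesOf (spec : Set (D F))} := by
      ext l
      refine ⟨fun hl => (spec_orbit hl).mpr h1, fun hl => ?_⟩
      exact (h l).resolve_right (fun h' => h2 ((spec_orbit h').mp hl))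
    have e2 : MulAction.orbit (grp F) l₂ =
        {l : Ln F | (l : Set (V F)) ∉ linesOf (spec : Set (D F))} := by
      ext l
      refine ⟨fun hl h' => h2 ((spec_orbit hl).mp h'), fun hl => ?_⟩
      exact (h l).resolve_left (fun h' => hl ((spec_orbit h').mpr h1))
    rw [e1, e2]
    omega
  rintro (h | ⟨l₁, l₂, -, h, hc⟩)
  · obtain ⟨g, hg⟩ := h.exists_smul_eq (mkL (Sum.inl 0) 0) (mkL (Sum.inl 1) 0)
    exact hn (hg ▸ spec_smul g _ hs)
  · by_cases h1 : (l₁ : Set (V F)) ∈ linesOf (spec : Set (D F))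
    · by_cases h2 : (l₂ : Set (V F)) ∈ linesOf (spec : Set (D F))
      · rcases h (mkL (Sum.inl 1) 0) with h' | h'
        · exact hn ((spec_orbit h').mpr h1)
        · exact hn ((spec_orbit h').mpr h2)
      · exact main l₁ l₂ h1 h2 h hc
    · by_cases h2 : (l₂ : Set (V F)) ∈ linesOf (spec : Set (D F))
      · exact main l₂ l₁ h2 h1 (fun l => (h l).symm) hc.symm
      · rcases h (mkL (Sum.inl 0) 0) with h' | h'
        · exact h1 ((spec_orbit h').mp hs)
        · exact h2 ((spec_orbit h').mp hs)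

lemma two_points (p q : V F) (l m : Ln F) (h1 : p ∈ (l : Set (V F))) (h2 : q ∈ (l : Set (V F)))
    (h3 : p ∈ (m : Set (V F))) (h4 : q ∈ (m : Set (V F))) : p = q ∨ l = m := by
  by_cases hpq : p = q
  · exact Or.inl hpq
  right
  obtain ⟨d, rfl⟩ := exists_mkL l h1
  obtain ⟨d', rfl⟩ := exists_mkL m h3
  rw [dir_eq_of_two hpq h2 h4]

lemma ncard_lines (p : V F) : {l : Ln F | p ∈ (l : Set (V F))}.ncard = 34 := by
  have := ncard_through (Set.univ : Set (D F)) p
  rw [Set.ncard_univ, card_D] at this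
  rw [← this]
  congr 1
  ext l
  exact ⟨fun h => ⟨l.2, h⟩, fun h => h.2⟩

end Pool.Agent.Lib.MP_c6b127_co
end
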